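import Pool.Agent.Helper43.LS.Defs

/-!
# Project LS, module LS-2

From a good rule on the reduced monomials to a symmetric chain decomposition of `L(5,n)`.
-/

set_option autoImplicit false

namespace Pool.LS

namespace Asm

/-- `x₄^(2b) P^i Q^j r`. -/
def comp (α β b i j : ℕ) (r : Mon) : Mon :=
  ⟨r.e1 + α * i, r.e2 + 5 * β * j, r.e3 + 3 * α * i, r.e4 + 2 * b, r.e5 + β * j⟩

/-- The exponent of `x₄²`. -/
def bOf (e : Mon) : ℕ := e.e4 / 2

/-- The exponent of `P`. -/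
def iOf (α : ℕ) (e : Mon) : ℕ := min (e.e1 / α) (e.e3 / (3 * α))

/-- The exponent of `Q`. -/
def jOf (β : ℕ) (e : Mon) : ℕ := min (e.e2 / (5 * β)) (e.e5 / β)

/-- The reduced part. -/
def rOf (α β : ℕ) (e : Mon) : Mon :=
  ⟨e.e1 - α * iOf α e, e.e2 - 5 * β * jOf β e, e.e3 - 3 * α * iOf α e, e.e4 % 2,
    e.e5 - β * jOf β e⟩

/-- The degree. -/
def deg (e : Mon) : ℕ := e.e1 + e.e2 + e.e3 + e.e4 + e.e5

/-- The rank. -/
def rk (e : Mon) : ℕ := e.e1 + 2 * e.e2 + 3 * e.e3 + 4 * e.e4 + 5 * e.e5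

theorem Mon.ext' {e f : Mon} (h1 : e.e1 = f.e1) (h2 : e.e2 = f.e2) (h3 : e.e3 = f.e3)
    (h4 : e.e4 = f.e4) (h5 : e.e5 = f.e5) : e = f := by
  cases e; cases f; simp_all

/-- Division with remainder by the pair `(A, B)`. -/
theorem min_div_lt (A B x y : ℕ) (hA : 0 < A) (hB : 0 < B) :
    A * min (x / A) (y / B) ≤ x ∧ B * min (x / A) (y / B) ≤ y ∧
      (x - A * min (x / A) (y / B) < A ∨ y - B * min (x / A) (y / B) < B) := by
  have h1 : A * (x / A) ≤ x := Nat.mul_div_le x A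
  have h2 : B * (y / B) ≤ y := Nat.mul_div_le y B
  have h3 : x < A * (x / A) + A := Nat.lt_mul_div_succ x hA
  have h4 : y < B * (y / B) + B := Nat.lt_mul_div_succ y hB
  have h5 : A * min (x / A) (y / B) ≤ A * (x / A) := Nat.mul_le_mul_left _ (min_le_left _ _)
  have h6 : B * min (x / A) (y / B) ≤ B * (y / B) := Nat.mul_le_mul_left _ (min_le_right _ _)
  refine ⟨by omega, by omega, ?_⟩
  rcases le_total (x / A) (y / B) with h | h
  · left
    rw [min_eq_left h]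
    omega
  · right
    rw [min_eq_right h]
    omega

theorem red_rOf {α β : ℕ} (hα : 0 < α) (hβ : 0 < β) (e : Mon) : Red α β (rOf α β e) := by
  have h1 := min_div_lt α (3 * α) e.e1 e.e3 hα (by omega)
  have h2 := min_div_lt (5 * β) β e.e2 e.e5 (by omega) hβ
  refine ⟨?_, ?_, ?_⟩
  · show e.e4 % 2 ≤ 1
    omega
  · exact h1.2.2
  · exact h2.2.2

theorem comp_rOf {α β : ℕ} (hα : 0 < α) (hβ : 0 < β) (e : Mon) :
    comp α β (bOf e) (iOf α e) (jOf β e) (rOf α β e) = e := by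
  have h1 := min_div_lt α (3 * α) e.e1 e.e3 hα (by omega)
  have h2 := min_div_lt (5 * β) β e.e2 e.e5 (by omega) hβ
  apply Mon.ext'
  · exact Nat.sub_add_cancel h1.1
  · exact Nat.sub_add_cancel h2.1
  · exact Nat.sub_add_cancel h1.2.1
  · show e.e4 % 2 + 2 * (e.e4 / 2) = e.e4
    omega
  · exact Nat.sub_add_cancel h2.2.1

theorem pair_inj (A B i i' x x' y y' : ℕ) (h : x < A ∨ y < B) (h' : x' < A ∨ y' < B)
    (h1 : x + A * i = x' + A * i') (h2 : y + B * i = y' + B * i') : i = i' ∧ x = x' ∧ y = y' := by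
  have key : i = i' := by
    by_contra hne
    rcases lt_or_gt_of_ne hne with hlt | hlt
    · have h3 : A * (i + 1) ≤ A * i' := Nat.mul_le_mul_left _ hlt
      have h4 : B * (i + 1) ≤ B * i' := Nat.mul_le_mul_left _ hlt
      rw [Nat.mul_add, Nat.mul_one] at h3 h4
      omega
    · have h3 : A * (i' + 1) ≤ A * i := Nat.mul_le_mul_left _ hlt
      have h4 : B * (i' + 1) ≤ B * i := Nat.mul_le_mul_left _ hlt
      rw [Nat.mul_add, Nat.mul_one] at h3 h4
      omega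
  subst key
  exact ⟨rfl, by omega, by omega⟩

theorem comp_inj {α β b b' i i' j j' : ℕ} {r s : Mon} (hr : Red α β r) (hs : Red α β s)
    (h : comp α β b i j r = comp α β b' i' j' s) : b = b' ∧ i = i' ∧ j = j' ∧ r = s := by
  have e1 : r.e1 + α * i = s.e1 + α * i' := congrArg Mon.e1 h
  have e2 : r.e2 + 5 * β * j = s.e2 + 5 * β * j' := congrArg Mon.e2 h
  have e3 : r.e3 + 3 * α * i = s.e3 + 3 * α * i' := congrArg Mon.e3 h
  have e4 : r.e4 + 2 * b = s.e4 + 2 * b' := congrArg Mon.e4 h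
  have e5 : r.e5 + β * j = s.e5 + β * j' := congrArg Mon.e5 h
  obtain ⟨r4, r13, r25⟩ := hr
  obtain ⟨s4, s13, s25⟩ := hs
  obtain ⟨hi, h1, h3⟩ := pair_inj α (3 * α) i i' _ _ _ _ r13 s13 e1 e3
  obtain ⟨hj, h2, h5⟩ := pair_inj (5 * β) β j j' _ _ _ _ r25 s25 e2 e5
  exact ⟨by omega, hi, hj, Mon.ext' h1 h2 h3 (by omega) h5⟩

theorem rOf_comp {α β : ℕ} (hα : 0 < α) (hβ : 0 < β) {b i j : ℕ} {r : Mon} (hr : Red α β r) :
    bOf (comp α β b i j r) = b ∧ rOf α β (comp α β b i j r) = r := by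
  have h := comp_inj (red_rOf hα hβ _) hr (comp_rOf hα hβ (comp α β b i j r))
  exact ⟨h.1, h.2.2.2⟩

/-- `v → w` is a step of the chains. -/
def Step (α β : ℕ) (lab : Mon → Lab) (mo : Mon → ℕ) (n : ℕ) (v w : Mon) : Prop :=
  ∃ b i j : ℕ, ∃ r : Mon, Red α β r ∧ v = comp α β b i j r ∧
    ((mo r ≠ 0 ∧ ∃ f, Red α β f ∧ Mv (mo r) r f ∧ w = comp α β b i j f) ∨
     (mo r = 0 ∧ Top lab r ∧ deg v < n ∧ w = comp α β b i j (x1 r)) ∨
     (mo r = 0 ∧ lab r = .C 5 ∧ ∃ u, r = x34 u ∧ Red α β u ∧ w = comp α β (b + 1) i j u))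

/-- The length of the chain through `v`. -/
def ordM (α β : ℕ) (lab : Mon → Lab) (n : ℕ) (v : Mon) : ℤ :=
  match lab (rOf α β v) with
  | .A o => (o : ℤ) + 5 * ((n : ℤ) - deg v) + 6 * bOf v
  | .B j => 2 * ((rk v : ℤ) + 4 - j + 5 * ((n : ℤ) - deg v)) - 5 * n
  | .C j => 5 * (n : ℤ) - 2 * ((rk v : ℤ) - j - 6 * bOf v)

theorem Mv_unique {k : ℕ} {e f g : Mon} (h : Mv k e f) (h' : Mv k e g) : f = g := by
  unfold Mv at h h'
  apply Mon.ext' <;> omega

theorem x34_inj {u v : Mon} (h : x34 u = x34 v) : u = v := by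
  unfold x34 at h
  rw [Mon.mk.injEq] at h
  exact Mon.ext' h.1 h.2.1 (by omega) (by omega) h.2.2.2.2

theorem x1_inj {u v : Mon} (h : x1 u = x1 v) : u = v := by
  unfold x1 at h
  rw [Mon.mk.injEq] at h
  exact Mon.ext' (by omega) h.2.1 h.2.2.1 h.2.2.2.1 h.2.2.2.2

theorem top_ne_C {lab : Mon → Lab} {r : Mon} {j : ℕ} (h : Top lab r) : lab r ≠ .C j := by
  intro h'
  rcases h with h | ⟨o, h, -⟩ <;> rw [h'] at h <;> cases h

theorem bot_ne_B {lab : Mon → Lab} {r : Mon} {j : ℕ} (h : Bot lab r) : lab r ≠ .B j := by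
  intro h'
  rcases h with h | ⟨o, h, -⟩ <;> rw [h'] at h <;> cases h

theorem step_fun {α β : ℕ} {lab : Mon → Lab} {mo : Mon → ℕ} {n : ℕ} {v w w' : Mon}
    (h : Step α β lab mo n v w) (h' : Step α β lab mo n v w') : w = w' := by
  obtain ⟨b, i, j, r, hr, hv, h⟩ := h
  obtain ⟨b', i', j', r', hr', hv', h'⟩ := h'
  obtain ⟨rfl, rfl, rfl, rfl⟩ := comp_inj hr hr' (hv.symm.trans hv')
  rcases h with ⟨hm, f, hf, hfm, hw⟩ | ⟨hm, ht, hd, hw⟩ | ⟨hm, hC, u, hu, hur, hw⟩ <;>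
  rcases h' with ⟨hm', f', hf', hfm', hw'⟩ | ⟨hm', ht', hd', hw'⟩ | ⟨hm', hC', u', hu', hur', hw'⟩
  · rw [hw, hw', Mv_unique hfm hfm']
  · exact absurd hm' hm
  · exact absurd hm' hm
  · exact absurd hm hm'
  · rw [hw, hw']
  · exact absurd hC' (top_ne_C ht)
  · exact absurd hm hm'
  · exact absurd hC (top_ne_C ht')
  · rw [hw, hw', x34_inj (hu.symm.trans hu')]

section
variable {α β : ℕ} {lab : Mon → Lab} {mo : Mon → ℕ} (h : Good α β lab mo)
include h

theorem step_inj {n : ℕ} {v v' w : Mon} (hs : Step α β lab mo n v w)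
    (hs' : Step α β lab mo n v' w) : v = v' := by
  obtain ⟨b, i, j, r, hr, hv, hs⟩ := hs
  obtain ⟨b', i', j', r', hr', hv', hs'⟩ := hs'
  rcases hs with ⟨hm, f, hf, hfm, hw⟩ | ⟨hm, ht, hd, hw⟩ | ⟨hm, hC, u, hu, hur, hw⟩ <;>
  rcases hs' with ⟨hm', f', hf', hfm', hw'⟩ | ⟨hm', ht', hd', hw'⟩ |
    ⟨hm', hC', u', hu', hur', hw'⟩
  · obtain ⟨rfl, rfl, rfl, rfl⟩ := comp_inj hf hf' (hw.symm.trans hw')
    rw [hv, hv', h.inj r r' f hr hr' hf hm hm' hfm hfm']
  · obtain ⟨hr1, hl⟩ := h.top r' hr' ht'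
    obtain ⟨-, -, -, rfl⟩ := comp_inj hf hr1 (hw.symm.trans hw')
    exact absurd (Or.inr hl) ((h.start _ hf).1 ⟨r, hr, hm, hfm⟩)
  · obtain ⟨-, -, -, rfl⟩ := comp_inj hf hur' (hw.symm.trans hw')
    obtain ⟨u'', hu'', hb⟩ := h.botOf r' hr' hC'
    have : f = u'' := x34_inj (hu'.symm.trans hu'')
    rw [← this] at hb
    exact absurd (Or.inl hb) ((h.start _ hf).1 ⟨r, hr, hm, hfm⟩)
  · obtain ⟨hr1, hl⟩ := h.top r hr ht
    obtain ⟨-, -, -, rfl⟩ := comp_inj hf' hr1 (hw'.symm.trans hw)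
    exact absurd (Or.inr hl) ((h.start _ hf').1 ⟨r', hr', hm', hfm'⟩)
  · obtain ⟨hr1, hl⟩ := h.top r hr ht
    obtain ⟨hr1', hl'⟩ := h.top r' hr' ht'
    obtain ⟨rfl, rfl, rfl, h4⟩ := comp_inj hr1 hr1' (hw.symm.trans hw')
    rw [hv, hv', x1_inj h4]
  · obtain ⟨hr1, hl⟩ := h.top r hr ht
    obtain ⟨-, -, -, h4⟩ := comp_inj hr1 hur' (hw.symm.trans hw')
    obtain ⟨u'', hu'', hb⟩ := h.botOf r' hr' hC'
    have : u' = u'' := x34_inj (hu'.symm.trans hu'')
    rw [← this, ← h4] at hb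
    exact absurd hl (bot_ne_B hb)
  · obtain ⟨-, -, -, rfl⟩ := comp_inj hf' hur (hw'.symm.trans hw)
    obtain ⟨u'', hu'', hb⟩ := h.botOf r hr hC
    have : f' = u'' := x34_inj (hu.symm.trans hu'')
    rw [← this] at hb
    exact absurd (Or.inl hb) ((h.start _ hf').1 ⟨r', hr', hm', hfm'⟩)
  · obtain ⟨hr1, hl⟩ := h.top r' hr' ht'
    obtain ⟨-, -, -, h4⟩ := comp_inj hr1 hur (hw'.symm.trans hw)
    obtain ⟨u'', hu'', hb⟩ := h.botOf r hr hC
    have : u = u'' := x34_inj (hu.symm.trans hu'')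
    rw [← this, ← h4] at hb
    exact absurd hl (bot_ne_B hb)
  · obtain ⟨h1, rfl, rfl, rfl⟩ := comp_inj hur hur' (hw.symm.trans hw')
    have h1' : b = b' := by omega
    rw [hv, hv', hu, hu', h1']

end

theorem deg_comp (α β b i j : ℕ) (r : Mon) :
    deg (comp α β b i j r) = deg r + 4 * (α * i) + 6 * (β * j) + 2 * b := by
  show r.e1 + α * i + (r.e2 + 5 * β * j) + (r.e3 + 3 * α * i) + (r.e4 + 2 * b) + (r.e5 + β * j) =
    r.e1 + r.e2 + r.e3 + r.e4 + r.e5 + 4 * (α * i) + 6 * (β * j) + 2 * b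
  ring

theorem rk_comp (α β b i j : ℕ) (r : Mon) :
    rk (comp α β b i j r) = rk r + 10 * (α * i) + 15 * (β * j) + 8 * b := by
  show r.e1 + α * i + 2 * (r.e2 + 5 * β * j) + 3 * (r.e3 + 3 * α * i) + 4 * (r.e4 + 2 * b) +
      5 * (r.e5 + β * j) =
    r.e1 + 2 * r.e2 + 3 * r.e3 + 4 * r.e4 + 5 * r.e5 + 10 * (α * i) + 15 * (β * j) + 8 * b
  ring

theorem two_rk (e : Mon) : 2 * (rk e : ℤ) = 5 * deg e + d2 e := by
  unfold rk deg d2
  push_cast
  ring

theorem two_rk_comp (α β b i j : ℕ) (r : Mon) :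
    2 * (rk (comp α β b i j r) : ℤ) = 5 * deg (comp α β b i j r) + 6 * b + d2 r := by
  have h := two_rk r
  rw [rk_comp, deg_comp]
  push_cast
  linarith

theorem Mv_deg {k : ℕ} {e f : Mon} (h : Mv k e f) : deg f = deg e ∧ rk f = rk e + 1 := by
  unfold Mv at h
  unfold deg rk
  omega

theorem deg_x1 (e : Mon) : deg (x1 e) = deg e + 1 ∧ rk (x1 e) = rk e + 1 := by
  unfold deg rk x1
  simp only
  omega

theorem deg_x34 (e : Mon) : deg (x34 e) = deg e + 2 ∧ rk (x34 e) = rk e + 7 := by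
  unfold deg rk x34
  simp only
  omega

theorem red_of_x1 {α β : ℕ} {e : Mon} (h : Red α β (x1 e)) : Red α β e := by
  unfold Red x1 at h
  unfold Red
  simp only at h
  omega

theorem red_of_x34 {α β : ℕ} {e : Mon} (h : Red α β (x34 e)) : Red α β e := by
  unfold Red x34 at h
  unfold Red
  simp only at h
  omega

/-- The length in terms of the label. -/
def ordL (n b d k : ℕ) : Lab → ℤ
  | .A o => (o : ℤ) + 5 * ((n : ℤ) - d) + 6 * b
  | .B j => 2 * ((k : ℤ) + 4 - j + 5 * ((n : ℤ) - d)) - 5 * n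
  | .C j => 5 * (n : ℤ) - 2 * ((k : ℤ) - j - 6 * b)

theorem ordM_eq (α β : ℕ) (lab : Mon → Lab) (n : ℕ) (v : Mon) :
    ordM α β lab n v = ordL n (bOf v) (deg v) (rk v) (lab (rOf α β v)) := by
  unfold ordM ordL
  rfl

theorem ordM_comp {α β : ℕ} (hα : 0 < α) (hβ : 0 < β) (lab : Mon → Lab) (n b i j : ℕ) {r : Mon}
    (hr : Red α β r) :
    ordM α β lab n (comp α β b i j r) =
      ordL n b (deg (comp α β b i j r)) (rk (comp α β b i j r)) (lab r) := by
  obtain ⟨h1, h2⟩ := rOf_comp (b := b) (i := i) (j := j) hα hβ hr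
  rw [ordM_eq, h1, h2]

theorem step_deg {α β : ℕ} {lab : Mon → Lab} {mo : Mon → ℕ} {n : ℕ} {v w : Mon}
    (h : Step α β lab mo n v w) (hn : deg v ≤ n) : deg w ≤ n ∧ rk w = rk v + 1 := by
  obtain ⟨b, i, j, r, hr, hv, h⟩ := h
  rcases h with ⟨hm, f, hf, hfm, hw⟩ | ⟨hm, ht, hd, hw⟩ | ⟨hm, hC, u, hu, hur, hw⟩
  · have := Mv_deg hfm
    rw [hw, deg_comp, rk_comp, this.1, this.2]
    rw [hv, deg_comp] at hn
    rw [hv, rk_comp]
    omega
  · have := deg_x1 r
    rw [hw, deg_comp, rk_comp, this.1, this.2]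
    rw [hv, deg_comp] at hd
    rw [hv, rk_comp]
    omega
  · have := deg_x34 u
    rw [hw, deg_comp, rk_comp]
    rw [hv, deg_comp, hu, this.1] at hn
    rw [hv, rk_comp, hu, this.2]
    omega

section
variable {α β : ℕ} {lab : Mon → Lab} {mo : Mon → ℕ} (hα : 0 < α) (hβ : 0 < β)
  (h : Good α β lab mo)
include hα hβ h

theorem ord_step {n : ℕ} {v w : Mon} (hs : Step α β lab mo n v w) :
    ordM α β lab n w = ordM α β lab n v := by
  obtain ⟨b, i, j, r, hr, hv, hs⟩ := hs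
  have ev := two_rk_comp α β b i j r
  rcases hs with ⟨hm, f, hf, hfm, hw⟩ | ⟨hm, ht, hd, hw⟩ | ⟨hm, hC, u, hu, hur, hw⟩
  · obtain ⟨f', hf', hfm', hl⟩ := h.step r hr hm
    obtain rfl := Mv_unique hfm hfm'
    have h1 := Mv_deg hfm
    have hdeg : deg (comp α β b i j f) = deg (comp α β b i j r) := by
      rw [deg_comp, deg_comp, h1.1]
    have hrk : rk (comp α β b i j f) = rk (comp α β b i j r) + 1 := by
      rw [rk_comp, rk_comp, h1.2]
      omega
    rw [hv, hw, ordM_comp hα hβ lab n b i j hr, ordM_comp hα hβ lab n b i j hf, hdeg, hrk, hl]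
    cases lab r with
    | A o => rfl
    | B k =>
      simp only [Lab.next, ordL]
      push_cast
      ring
    | C k =>
      simp only [Lab.next, ordL]
      push_cast
      ring
  · obtain ⟨hr1, hl⟩ := h.top r hr ht
    have h1 := deg_x1 r
    have hdeg : deg (comp α β b i j (x1 r)) = deg (comp α β b i j r) + 1 := by
      rw [deg_comp, deg_comp, h1.1]
      omega
    have hrk : rk (comp α β b i j (x1 r)) = rk (comp α β b i j r) + 1 := by
      rw [rk_comp, rk_comp, h1.2]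
      omega
    rw [hv, hw, ordM_comp hα hβ lab n b i j hr, ordM_comp hα hβ lab n b i j hr1, hdeg, hrk, hl]
    rcases ht with ht | ⟨o, ht, hd2⟩
    · rw [ht]
      simp only [ordL]
      push_cast
      ring
    · rw [ht]
      simp only [ordL]
      push_cast
      rw [hd2] at ev
      linarith
  · obtain ⟨u', hu', hb⟩ := h.botOf r hr hC
    obtain rfl : u = u' := x34_inj (hu.symm.trans hu')
    have h1 := deg_x34 u
    have hdeg : deg (comp α β (b + 1) i j u) = deg (comp α β b i j r) := by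
      rw [deg_comp, deg_comp, hu, h1.1]
      omega
    have hrk : rk (comp α β (b + 1) i j u) = rk (comp α β b i j r) + 1 := by
      rw [rk_comp, rk_comp, hu, h1.2]
      omega
    have ev2 := two_rk_comp α β (b + 1) i j u
    rw [hdeg, hrk] at ev2
    rw [hv, hw, ordM_comp hα hβ lab n b i j hr, ordM_comp hα hβ lab n (b + 1) i j hur, hdeg, hrk,
      hC]
    rcases hb with hb | ⟨o, hb, hd2⟩
    · rw [hb]
      simp only [ordL]
      push_cast
      ring
    · rw [hb]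
      simp only [ordL]
      rw [hd2] at ev2
      push_cast at ev2 ⊢
      linarith

theorem top_of {n : ℕ} {v : Mon} (hn : deg v ≤ n) (hs : ¬ ∃ w, Step α β lab mo n v w) :
    2 * (rk v : ℤ) = 5 * n + ordM α β lab n v := by
  have hr := red_rOf hα hβ v
  have hv := (comp_rOf hα hβ v).symm
  set b := bOf v
  set i := iOf α v
  set j := jOf β v
  set r := rOf α β v
  have hm : mo r = 0 := by
    by_contra hm
    obtain ⟨f, hf, hfm, -⟩ := h.step r hr hm
    exact hs ⟨_, b, i, j, r, hr, hv, Or.inl ⟨hm, f, hf, hfm, rfl⟩⟩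
  rcases (h.stop r hr).1 hm with ht | hC
  · have hd : deg v = n := by
      by_contra hd
      exact hs ⟨_, b, i, j, r, hr, hv, Or.inr (Or.inl ⟨hm, ht, lt_of_le_of_ne hn hd, rfl⟩)⟩
    have ev := two_rk_comp α β b i j r
    have eo := ordM_comp hα hβ lab n b i j hr
    rw [← hv] at ev eo
    rw [eo]
    rcases ht with ht | ⟨o, ht, hd2⟩
    · rw [ht, hd]
      simp only [ordL]
      push_cast
      ring
    · rw [ht]
      simp only [ordL]
      rw [hd2, hd] at ev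
      rw [hd]
      linarith
  · obtain ⟨u, hu, hb⟩ := h.botOf r hr hC
    have hur : Red α β u := red_of_x34 (hu ▸ hr)
    exact absurd ⟨_, b, i, j, r, hr, hv, Or.inr (Or.inr ⟨hm, hC, u, hu, hur, rfl⟩)⟩ hs

theorem bot_of {n : ℕ} {w : Mon} (hn : deg w ≤ n)
    (hs : ¬ ∃ v, deg v ≤ n ∧ Step α β lab mo n v w) :
    2 * (rk w : ℤ) + ordM α β lab n w = 5 * n := by
  have hr := red_rOf hα hβ w
  have hw := (comp_rOf hα hβ w).symm
  set b := bOf w
  set i := iOf α w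
  set j := jOf β w
  set s := rOf α β w
  have hst : Bot lab s ∨ lab s = .B 0 := by
    by_contra hst
    obtain ⟨e, he, hme, hmv⟩ := (h.start s hr).2 hst
    refine hs ⟨comp α β b i j e, ?_, b, i, j, e, he, rfl, Or.inl ⟨hme, s, hr, hmv, hw⟩⟩
    have h1 := Mv_deg hmv
    rw [deg_comp, ← h1.1, ← deg_comp, ← hw]
    exact hn
  rcases hst with hb | hB
  · have hb0 : b = 0 := by
      by_contra hb0
      obtain ⟨b', hb'⟩ := Nat.exists_eq_succ_of_ne_zero hb0
      obtain ⟨-, h34, hC⟩ := h.bot s hr hb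
      have hm : mo (x34 s) = 0 := (h.stop _ h34).2 (Or.inr hC)
      refine hs ⟨comp α β b' i j (x34 s), ?_, b', i, j, x34 s, h34, rfl,
        Or.inr (Or.inr ⟨hm, hC, s, rfl, hr, ?_⟩)⟩
      · have h1 := deg_x34 s
        rw [hw, deg_comp] at hn
        rw [deg_comp, h1.1]
        have : b = b' + 1 := hb'
        omega
      · rw [hw, hb']
    have ev := two_rk_comp α β b i j s
    have eo := ordM_comp hα hβ lab n b i j hr
    rw [← hw] at ev eo
    rw [eo]
    rcases hb with hb | ⟨o, hb, hd2⟩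
    · rw [hb, hb0]
      simp only [ordL]
      push_cast
      ring
    · rw [hb]
      simp only [ordL]
      rw [hd2, hb0] at ev
      rw [hb0]
      push_cast at ev ⊢
      linarith
  · obtain ⟨t, ht, htop⟩ := h.topOf s hr hB
    have htr : Red α β t := red_of_x1 (ht ▸ hr)
    have hm : mo t = 0 := (h.stop _ htr).2 (Or.inl htop)
    have h1 := deg_x1 t
    have hlt : deg (comp α β b i j t) < n := by
      rw [hw, deg_comp, ht, h1.1] at hn
      rw [deg_comp]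
      omega
    exact absurd ⟨comp α β b i j t, hlt.le, b, i, j, t, htr, rfl,
      Or.inr (Or.inl ⟨hm, htop, hlt, by rw [hw, ht]⟩)⟩ hs

end

/-- The monomial of a partition. -/
def toMon (x : Fin 5 → ℕ) : Mon := ⟨x 4 - x 3, x 3 - x 2, x 2 - x 1, x 1 - x 0, x 0⟩

/-- The partition of a monomial. -/
def ofMon (e : Mon) : Fin 5 → ℕ :=
  ![e.e5, e.e5 + e.e4, e.e5 + e.e4 + e.e3, e.e5 + e.e4 + e.e3 + e.e2,
    e.e5 + e.e4 + e.e3 + e.e2 + e.e1]

theorem to_of (e : Mon) : toMon (ofMon e) = e := by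
  apply Mon.ext' <;> simp [toMon, ofMon]

theorem mono_of (e : Mon) : Monotone (ofMon e) := by
  refine Fin.monotone_iff_le_succ.2 ?_
  intro i
  fin_cases i <;> simp [ofMon]

theorem le_of (e : Mon) (n : ℕ) : (∀ i, ofMon e i ≤ n) ↔ deg e ≤ n := by
  constructor
  · intro h
    have := h 4
    simp [ofMon] at this
    unfold deg
    omega
  · intro h i
    unfold deg at h
    fin_cases i <;> simp [ofMon] <;> omega

theorem of_to {x : Fin 5 → ℕ} (hx : Monotone x) : ofMon (toMon x) = x := by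
  have h0 : x 0 ≤ x 1 := hx (by decide)
  have h1 : x 1 ≤ x 2 := hx (by decide)
  have h2 : x 2 ≤ x 3 := hx (by decide)
  have h3 : x 3 ≤ x 4 := hx (by decide)
  ext i
  fin_cases i <;> simp [ofMon, toMon] <;> omega

theorem sum_of (e : Mon) : ∑ i, ofMon e i = rk e := by
  rw [Fin.sum_univ_five]
  simp [ofMon, rk]
  omega

theorem step_le {α β : ℕ} {lab : Mon → Lab} {mo : Mon → ℕ} {n : ℕ} {v w : Mon}
    (h : Step α β lab mo n v w) : ofMon v ≤ ofMon w := by
  obtain ⟨b, i, j, r, hr, hv, h⟩ := h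
  rcases h with ⟨hm, f, hf, hfm, hw⟩ | ⟨hm, ht, hd, hw⟩ | ⟨hm, hC, u, hu, hur, hw⟩
  · subst hv hw
    unfold Mv at hfm
    intro k
    fin_cases k <;> simp [ofMon, comp] <;> omega
  · subst hv hw
    intro k
    fin_cases k <;> simp [ofMon, comp, x1]
  · subst hv hw hu
    intro k
    fin_cases k <;> simp [ofMon, comp, x34] <;> omega

/-- The statement of the module LS-1. -/
def NextStmt : Prop :=
  ∀ (m n : ℕ) (next : (Fin m → ℕ) → Option (Fin m → ℕ)) (ord : (Fin m → ℕ) → ℤ),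
    (∀ a b, (Monotone a ∧ ∀ i, a i ≤ n) → next a = some b →
      (Monotone b ∧ ∀ i, b i ≤ n) ∧ a ≤ b ∧ ∑ i, b i = ∑ i, a i + 1 ∧ ord b = ord a) →
    (∀ a a' b, (Monotone a ∧ ∀ i, a i ≤ n) → (Monotone a' ∧ ∀ i, a' i ≤ n) →
      next a = some b → next a' = some b → a = a') →
    (∀ a, (Monotone a ∧ ∀ i, a i ≤ n) → next a = none →
      2 * ((∑ i, a i : ℕ) : ℤ) = (m : ℤ) * n + ord a) →
    (∀ b, (Monotone b ∧ ∀ i, b i ≤ n) →
      (¬ ∃ a, (Monotone a ∧ ∀ i, a i ≤ n) ∧ next a = some b) →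
      2 * ((∑ i, b i : ℕ) : ℤ) + ord b = (m : ℤ) * n) →
    SCO m n

open Classical in
/-- The successor function. -/
noncomputable def nextF (α β : ℕ) (lab : Mon → Lab) (mo : Mon → ℕ) (n : ℕ) (x : Fin 5 → ℕ) :
    Option (Fin 5 → ℕ) :=
  if h : ∃ w, Step α β lab mo n (toMon x) w then some (ofMon h.choose) else none

theorem nextF_some {α β : ℕ} {lab : Mon → Lab} {mo : Mon → ℕ} {n : ℕ} {x y : Fin 5 → ℕ}
    (h : nextF α β lab mo n x = some y) : ∃ w, Step α β lab mo n (toMon x) w ∧ y = ofMon w := by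
  unfold nextF at h
  split_ifs at h with hw
  exact ⟨hw.choose, hw.choose_spec, (Option.some.inj h).symm⟩

theorem nextF_of {α β : ℕ} {lab : Mon → Lab} {mo : Mon → ℕ} {n : ℕ} {x : Fin 5 → ℕ} {w : Mon}
    (h : Step α β lab mo n (toMon x) w) : nextF α β lab mo n x = some (ofMon w) := by
  have hw : ∃ w, Step α β lab mo n (toMon x) w := ⟨w, h⟩
  unfold nextF
  rw [dif_pos hw, step_fun hw.choose_spec h]

theorem nextF_none {α β : ℕ} {lab : Mon → Lab} {mo : Mon → ℕ} {n : ℕ} {x : Fin 5 → ℕ}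
    (h : nextF α β lab mo n x = none) : ¬ ∃ w, Step α β lab mo n (toMon x) w := by
  rintro ⟨w, hw⟩
  rw [nextF_of hw] at h
  cases h

theorem mem_deg {n : ℕ} {x : Fin 5 → ℕ} (hx : Monotone x ∧ ∀ i, x i ≤ n) :
    deg (toMon x) ≤ n := by
  rw [← le_of, of_to hx.1]
  exact hx.2

/-- LS-2 with LS-1 as a hypothesis. -/
theorem sco_of_good_of (hnext : NextStmt) (α β : ℕ) (hα : 0 < α) (hβ : 0 < β) (lab : Mon → Lab)
    (mo : Mon → ℕ) (h : Good α β lab mo) (n : ℕ) : SCO 5 n := by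
  refine hnext 5 n (nextF α β lab mo n) (fun x => ordM α β lab n (toMon x)) ?_ ?_ ?_ ?_
  · intro a b ha hab
    obtain ⟨w, hw, rfl⟩ := nextF_some hab
    have hd := mem_deg ha
    have h1 := step_deg hw hd
    have h2 := step_le hw
    rw [of_to ha.1] at h2
    refine ⟨⟨mono_of w, (le_of w n).2 h1.1⟩, h2, ?_, ?_⟩
    · rw [sum_of, h1.2, ← sum_of, of_to ha.1]
    · show ordM α β lab n (toMon (ofMon w)) = _
      rw [to_of]
      exact ord_step hα hβ h hw
  · intro a a' b ha ha' hb hb'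
    obtain ⟨w, hw, hwb⟩ := nextF_some hb
    obtain ⟨w', hw', hwb'⟩ := nextF_some hb'
    have e : w = w' := by
      rw [← to_of w, ← to_of w', ← hwb, ← hwb']
    subst e
    have := step_inj h hw hw'
    rw [← of_to ha.1, ← of_to ha'.1, this]
  · intro a ha hn
    have h1 := top_of hα hβ h (mem_deg ha) (nextF_none hn)
    rw [← sum_of, of_to ha.1] at h1
    exact_mod_cast h1
  · intro b hb hno
    have h1 := bot_of hα hβ h (mem_deg hb) (n := n) (by
      rintro ⟨v, hv, hs⟩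
      refine hno ⟨ofMon v, ⟨mono_of v, (le_of v n).2 hv⟩, ?_⟩
      rw [← to_of v] at hs
      rw [nextF_of hs, of_to hb.1])
    rw [← sum_of, of_to hb.1] at h1
    exact_mod_cast h1

end Asm

end Pool.LS
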