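import Pool.Agent.Helper37.LS.Assemble
import Pool.Agent.Helper16.LS.Next

/-!
# Project LS, module LS-2: final form

A good rule on the reduced monomials gives a symmetric chain decomposition of `L(5,n)` for all `n`.
-/

set_option autoImplicit false

namespace Pool.LS

theorem sco_of_good (α β : ℕ) (hα : 0 < α) (hβ : 0 < β) (lab : Mon → Lab) (mo : Mon → ℕ)
    (h : Good α β lab mo) (n : ℕ) : SCO 5 n :=
  Asm.sco_of_good_of (fun m n next ord h1 h2 h3 h4 => sco_of_next m n next ord h1 h2 h3 h4)
    α β hα hβ lab mo h n

end Pool.LS
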